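import Pool.Agent.Helper67_DEN.Filt

/-!
# BIR
-/

namespace Pool.Agent.DEN.H67

open Pool.Agent.DEN

theorem bir (hI : IwaStmt) (hBn : BndStmt) (hU : UpsStmt) (hR : Rk1Stmt) (hF1 : Fld1Stmt)
    (hF2 : Fld2Stmt) (hD : RootDescStmt) (hS : RootSignStmt) (hF : RootFinStmt)
    (hA : RelAStmt) (hB : RelBStmt) (hM : MaxStmt) : BirStmt := by
  intro r C hC K _ x
  obtain ⟨-, -, -, -, fmono, -⟩ := hF1 K
  obtain ⟨-, -, -, fdiv, fring⟩ := hF2 K
  obtain ⟨-, mw, -, mfix⟩ := hM r C hC K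
  obtain ⟨-, -, -, spair⟩ := hS r C hC
  have hfin : Finite (Rt C) := hF r C hC
  have hpol : ∀ p : Polynomial K, polyL K p ∈ ringA K 1 := fun p =>
    Subring.subset_closure (Or.inl ⟨p, rfl⟩)
  have fdiv1 : ∀ a : FF K, ∃ p : Polynomial K, a - polyL K p ∈ Bd K (-1) := by
    intro a
    obtain ⟨p, hp⟩ := fdiv 1 one_ne_zero a
    refine ⟨p, ?_⟩
    simpa using hp
  set T : ℤ → Prop := fun s => ∃ γ ∈ arith C K 1, ∃ u ∈ Ug C K, ∃ (l : Fin r → ℤ) (g : grp C K),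
    IsTor l g ∧ γ • x = u • pt g ∧ s = ∑ᶠ β : {β : Rt C // β.Pos}, ip C β.1.1 l with hT
  obtain ⟨M, hM1⟩ := hBn r C hC K x
  have hT1 : ∀ s, T s → s ≤ M := by
    rintro s ⟨γ, hγ, u, hu, l, g, hg, h1, rfl⟩
    exact hM1 γ hγ u hu l g hg h1
  have hT2 : ∃ s, T s := by
    obtain ⟨u, hu, l, g, hg, e⟩ := hI r C hC K x
    exact ⟨_, 1, one_mem _, u, hu, l, g, hg, by rw [one_smul]; exact e, rfl⟩
  obtain ⟨s, ⟨γ, hγ, u, hu, l, g, hg, hx, rfl⟩, hmax⟩ :=
    Int.exists_greatest_of_bdd ⟨M, hT1⟩ hT2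
  have hsum : ∀ (i : Fin r) (c : ℤ), ∑ᶠ β : {β : Rt C // β.Pos}, ip C β.1.1 (l - c • al i) =
      ∑ᶠ β : {β : Rt C // β.Pos}, ip C β.1.1 l - c * 2 := by
    intro i c
    have h2 := (hD r C hC).2.2 i
    have : Fintype {β : Rt C // β.Pos} := Fintype.ofFinite _
    rw [finsum_eq_sum_of_fintype] at h2 ⊢
    rw [finsum_eq_sum_of_fintype]
    have e : c * 2 = ∑ β : {β : Rt C // β.Pos}, c * ip C β.1.1 (al i) := by
      rw [← Finset.mul_sum]
      exact congrArg _ h2.symm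
    rw [e, ← Finset.sum_sub_distrib]
    refine Finset.sum_congr rfl fun β _ => ?_
    rw [ip_sub_right, ip_smul_right]
  have hdom : IsDom C l := by
    intro i
    by_contra hi
    rw [not_le] at hi
    obtain ⟨u1, u2, u3⟩ := hU r C hC K i
    obtain ⟨b, u', hu', rfl⟩ := u1 u hu
    obtain ⟨p, hp⟩ := fdiv1 b
    set a0 := polyL K p with ha0
    have hγ1 : xg hC (hC.sr i) (-a0) * γ ∈ arith C K 1 :=
      mul_mem (xg_mem_arith hC 1 _ (neg_mem (hpol p))) hγ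
    have hγ2 : wg hC (hC.sr i) (1 : FF K) * (xg hC (hC.sr i) (-a0) * γ) ∈ arith C K 1 :=
      mul_mem (mw _).2 hγ1
    have h3 := u2 _ (u3 u' hu' (-a0))
    set n := wg hC (hC.sr i) (1 : FF K) * (xg hC (hC.sr i) (-a0) * u' *
      (xg hC (hC.sr i) (-a0))⁻¹) * (wg hC (hC.sr i) (1 : FF K))⁻¹ with hn
    have h4 : n ∈ Ug C K := Un_le (C := C) (K := K) i h3
    have e : (wg hC (hC.sr i) (1 : FF K) * (xg hC (hC.sr i) (-a0) * γ)) • x =
        n • wg hC (hC.sr i) (1 : FF K) • xg hC (hC.sr i) (b - a0) • pt g := by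
      rw [mul_smul, mul_smul, hx, hn]
      simp only [← mul_smul]
      congr 1
      have e1 : xg hC (hC.sr i) (b - a0) = xg hC (hC.sr i) (-a0) * xg hC (hC.sr i) b := by
        rw [← xg_add]
        congr 1
        ring
      rw [e1]
      group
    rcases hR r C hC K i (b - a0) l g hg with ⟨-, e1, g', hg', e2⟩ | ⟨m, -, -, hm, g', hg', e2⟩
    · rw [e1, e2] at e
      have := hmax _ ⟨_, hγ2, n, h4, _, g', hg', e, rfl⟩
      rw [hsum] at this
      omega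
    · rw [e2, ← mul_smul] at e
      have := hmax _ ⟨_, hγ2, _, mul_mem h4 (mem_Ug hC (sr_pos hC i) _), _, g', hg', e, rfl⟩
      rw [hsum] at this
      have h5 : m - 1 < -1 := by
        by_contra h5
        exact hm (fmono _ _ _ (not_lt.1 h5) hp)
      omega
  have hUg : Ug C K = Subgroup.closure
      {g : grp C K | ∃ β ∈ {β : Rt C | β.Pos}, ∃ a : FF K, g = xg hC β a} := by
    unfold Ug
    congr 1
    ext g
    constructor
    · rintro ⟨β, a, h, h'⟩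
      exact ⟨β, h, a, eq_xg hC β a g h'⟩
    · rintro ⟨β, h, a, rfl⟩
      exact ⟨β, a, h, fun _ => rfl⟩
  rw [hUg] at hu
  obtain ⟨a, ha, b, hb, e⟩ := filt hA hB hF hC {β : Rt C | β.Pos}
    (fun β hβ => one_le_ht hβ) (by
      intro β hβ γ hγ δ h j
      rw [h, Pi.add_apply]
      exact add_nonneg (hβ j) (hγ j)) (arith C K 1) (MulAction.stabilizer (grp C K) (pt g)) (by
      intro β hβ a
      have hβ' : β.Pos := hβ
      obtain ⟨p, hp⟩ := fdiv1 a
      refine ⟨polyL K p, a - polyL K p, by ring, xg_mem_arith hC 1 _ (hpol p), ?_⟩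
      have h0 : 0 ≤ ip C β.1 l := by
        rcases isEmpty_or_nonempty (Fin r) with h | ⟨⟨i⟩⟩
        · have := β.2
          simp [ip] at this
        · exact le_trans (mul_nonneg (hβ' i) (hdom i)) (spair β.1 l hdom hβ' i)
      exact mfix l g hg β _ (fmono _ _ _ (by omega) hp)) u hu
  refine ⟨γ⁻¹ * a, mul_mem (inv_mem hγ) ha.1, l, g, hg, hdom, ?_⟩
  have hb1 : b • pt g = pt g := hb.1
  rw [mul_smul, ← inv_smul_smul γ x, hx, e, mul_smul, hb1]

end Pool.Agent.DEN.H67
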