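import Pool.Agent.Helper67_DEN.Iwa

/-!
# BRU
-/

namespace Pool.Agent.DEN.H67

open Pool.Agent.DEN

section
variable {r : ℕ} {C : Matrix (Fin r) (Fin r) ℤ} {K : Type} [Field K]

theorem refl_norm (hC : SimplyLaced C) (β γ : Rt C) :
    ip C (γ.1 - ip C β.1 γ.1 • β.1) (γ.1 - ip C β.1 γ.1 • β.1) = 2 := by
  simp only [ip_sub_left, ip_sub_right, ip_smul_left, ip_smul_right, β.2, γ.2,
    hC.ip_comm γ.1 β.1]
  ring

/-- the reflection in a root -/
def rf (hC : SimplyLaced C) (β : Rt C) : Equiv.Perm (Rt C) where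
  toFun γ := ⟨γ.1 - ip C β.1 γ.1 • β.1, refl_norm hC β γ⟩
  invFun γ := ⟨γ.1 - ip C β.1 γ.1 • β.1, refl_norm hC β γ⟩
  left_inv γ := by
    apply Subtype.ext
    show γ.1 - ip C β.1 γ.1 • β.1 - ip C β.1 (γ.1 - ip C β.1 γ.1 • β.1) • β.1 = γ.1
    rw [ip_sub_right, ip_smul_right, β.2]
    module
  right_inv γ := by
    apply Subtype.ext
    show γ.1 - ip C β.1 γ.1 • β.1 - ip C β.1 (γ.1 - ip C β.1 γ.1 • β.1) • β.1 = γ.1
    rw [ip_sub_right, ip_smul_right, β.2]
    module

theorem rf_val (hC : SimplyLaced C) (β γ : Rt C) :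
    (rf hC β γ).1 = γ.1 - ip C β.1 γ.1 • β.1 := rfl

theorem mono_one (hC : SimplyLaced C) : IsMono hC (1 : grp C K) := by
  refine ⟨Equiv.refl _, fun _ => 1, fun _ => 1, fun β => ⟨one_ne_zero, one_ne_zero⟩,
    fun β => rfl, fun β a => ?_, fun v β => ?_, fun v hv => hv⟩
  · rw [one_mul, inv_one, mul_one, one_mul]
    rfl
  · rw [one_mul]
    rfl

theorem mono_mul (hC : SimplyLaced C) {n m : grp C K} (hn : IsMono hC n) (hm : IsMono hC m) :
    IsMono hC (n * m) := by
  obtain ⟨s, c, d, h1, h2, h3, h4, h5⟩ := hn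
  obtain ⟨s', c', d', h1', h2', h3', h4', h5'⟩ := hm
  refine ⟨s'.trans s, fun β => c (s' β) * c' β, fun β => d (s' β) * d' β,
    fun β => ⟨mul_ne_zero (h1 _).1 (h1' _).1, mul_ne_zero (h1 _).2 (h1' _).2⟩,
    fun β => ?_, fun β a => ?_, fun v β => ?_, fun v hv => h5 _ (h5' _ hv)⟩
  · show s (s' β.neg) = (s (s' β)).neg
    rw [h2', h2]
  · have e : n * m * xg hC β a * (n * m)⁻¹ = n * (m * xg hC β a * m⁻¹) * n⁻¹ := by group
    rw [e, h3', h3, mul_assoc]
    rfl
  · have e : (n * m).1 v = n.1 (m.1 v) := rfl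
    rw [e]
    show (n.1 (m.1 v)).2 (s (s' β)) = _
    rw [h4, h4', mul_assoc]

theorem mono_inv_conj (hC : SimplyLaced C) {n : grp C K} (hn : IsMono hC n) (β : Rt C) :
    ∃ γ : Rt C, ∀ a : FF K, (∃ a', n⁻¹ * xg hC β a * n = xg hC γ a') ∧
      ∃ a', n⁻¹ * xg hC β.neg a * n = xg hC γ.neg a' := by
  obtain ⟨s, c, d, h1, h2, h3, h4, h5⟩ := hn
  refine ⟨s.symm β, fun a => ⟨⟨(c (s.symm β))⁻¹ * a, ?_⟩, ⟨(c (s.symm β).neg)⁻¹ * a, ?_⟩⟩⟩
  · have := h3 (s.symm β) ((c (s.symm β))⁻¹ * a)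
    rw [Equiv.apply_symm_apply, mul_inv_cancel_left₀ (h1 _).1] at this
    rw [← this]
    group
  · have := h3 (s.symm β).neg ((c (s.symm β).neg)⁻¹ * a)
    rw [h2, Equiv.apply_symm_apply, mul_inv_cancel_left₀ (h1 _).1] at this
    rw [← this]
    group

theorem mono_wg (hRC : RelCStmt) (hW : RelWStmt) (hC : SimplyLaced C) (β : Rt C) {c : FF K}
    (hc : c ≠ 0) : IsMono hC (wg hC β c) := by
  classical
  set cf : Rt C → FF K := fun γ => if ip C β.1 γ.1 = 2 then (c ^ 2)⁻¹
    else if ip C β.1 γ.1 = 1 then c⁻¹ * ((eps C β.1 γ.1 : ℤ) : FF K)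
    else if ip C β.1 γ.1 = 0 then 1
    else if ip C β.1 γ.1 = -1 then c * ((eps C β.1 γ.1 : ℤ) : FF K) else c ^ 2 with hcf
  have he : ∀ γ : Rt C, ((eps C β.1 γ.1 : ℤ) : FF K) ≠ 0 := by
    intro γ
    rcases eps_cases (C := C) β.1 γ.1 with h | h <;> rw [h] <;> simp
  have hcases : ∀ γ : Rt C, ip C β.1 γ.1 = 2 ∨ ip C β.1 γ.1 = 1 ∨ ip C β.1 γ.1 = 0 ∨
      ip C β.1 γ.1 = -1 ∨ ip C β.1 γ.1 = -2 := by
    intro γ
    have := hC.ip_bound β γ
    omega
  have hnz : ∀ γ, cf γ ≠ 0 := by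
    intro γ
    simp only [hcf]
    split_ifs
    · exact inv_ne_zero (pow_ne_zero _ hc)
    · exact mul_ne_zero (inv_ne_zero hc) (he γ)
    · exact one_ne_zero
    · exact mul_ne_zero hc (he γ)
    · exact pow_ne_zero _ hc
  refine ⟨rf hC β, cf, cf, fun γ => ⟨hnz γ, hnz γ⟩, ?_, ?_, ?_, ?_⟩
  · intro γ
    apply Subtype.ext
    rw [rf_val, Rt.neg_val, Rt.neg_val, rf_val, ip_neg_right]
    module
  · intro γ a
    obtain ⟨q1, q2, q3, q4, q5⟩ := hRC r C hC K β c hc a
    rcases hcases γ with h | h | h | h | h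
    · have e : γ = β := (hC.ip_eq_two h).symm
      subst e
      have e2 : rf hC γ γ = γ.neg := by
        apply Subtype.ext
        rw [rf_val, Rt.neg_val, γ.2]
        module
      rw [q1, e2]
      simp only [hcf, h, if_true]
    · have e2 := q3 γ (rf hC β γ) h (by rw [rf_val, h, one_smul])
      rw [e2]
      simp only [hcf, h]
      norm_num
    · have e1 : rf hC β γ = γ := by
        apply Subtype.ext
        rw [rf_val, h, zero_smul, sub_zero]
      rw [q5 γ h, e1]
      simp only [hcf, h]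
      norm_num
    · have e2 := q4 γ (rf hC β γ) h (by rw [rf_val, h, neg_smul, one_smul, sub_neg_eq_add])
      rw [e2]
      simp only [hcf, h]
      norm_num
    · have e : γ = β.neg := hC.ip_eq_neg_two h
      subst e
      have e2 : rf hC β β.neg = β := by
        apply Subtype.ext
        rw [rf_val, h, Rt.neg_val]
        module
      rw [q2, e2]
      simp only [hcf, h]
      norm_num
  · intro v γ
    obtain ⟨-, q1, q2, q3, q4, q5⟩ := hW r C hC K β c hc v
    rcases hcases γ with h | h | h | h | h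
    · have e : γ = β := (hC.ip_eq_two h).symm
      subst e
      have e2 : rf hC γ γ = γ.neg := by
        apply Subtype.ext
        rw [rf_val, Rt.neg_val, γ.2]
        module
      rw [e2, q2]
      simp only [hcf, h, if_true]
    · have e3 : (rf hC β γ).1 = γ.1 - β.1 := by rw [rf_val, h, one_smul]
      have e2 := q4 (rf hC β γ) (by rw [e3, ip_sub_right, h, β.2]; norm_num)
      rw [e2, e3, sub_add_cancel, crd_root]
      simp only [hcf, h]
      norm_num
    · have e1 : rf hC β γ = γ := by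
        apply Subtype.ext
        rw [rf_val, h, zero_smul, sub_zero]
      rw [e1, q5 γ h]
      simp only [hcf, h]
      norm_num
    · have e3 : (rf hC β γ).1 = γ.1 + β.1 := by
        rw [rf_val, h, neg_smul, one_smul, sub_neg_eq_add]
      have e2 := q3 (rf hC β γ) (by rw [e3, ip_add_right, h, β.2]; norm_num)
      rw [e2, e3, add_sub_cancel_right, crd_root]
      simp only [hcf, h]
      norm_num
    · have e : γ = β.neg := hC.ip_eq_neg_two h
      subst e
      have e2 : rf hC β β.neg = β := by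
        apply Subtype.ext
        rw [rf_val, h, Rt.neg_val]
        module
      rw [e2, q1]
      simp only [hcf, h]
      norm_num
  · intro v hv
    funext i
    rw [(hW r C hC K β c hc v).1 i]
    simp [hv, pr]

end

theorem bru (hG : GenStmt) (hU : UpsStmt) (hRC : RelCStmt) (hW : RelWStmt) (hS : RootSignStmt)
    (hH : RelHStmt) : BruStmt := by
  intro r C hC K _ g
  have key := stable (C := C) (K := K) hG hH hC (X := grp C K)
    (fun g => ∃ u ∈ Ug C K, ∃ n, IsMono hC n ∧ ∃ u' ∈ Ug C K, g = u * n * u') ?_ ?_ g 1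
    ⟨1, one_mem _, 1, mono_one hC, 1, one_mem _, by simp⟩
  · rw [smul_eq_mul, mul_one] at key
    exact key
  · rintro i a _ ⟨u, hu, n, hn, u', hu', rfl⟩
    exact ⟨_, mul_mem (mem_Ug hC (sr_pos hC i) a) hu, n, hn, u', hu', by
      rw [smul_eq_mul]; group⟩
  · rintro i _ ⟨u, hu, n, hn, u', hu', rfl⟩
    obtain ⟨u1, u2, -⟩ := hU r C hC K i
    obtain ⟨b, v, hv, rfl⟩ := u1 u hu
    have h3 := Un_le (C := C) (K := K) i (u2 v hv)
    set w := wg hC (hC.sr i) (1 : FF K) with hw
    have hwm : IsMono hC w := mono_wg hRC hW hC _ one_ne_zero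
    obtain ⟨γ, hγ⟩ := mono_inv_conj hC hn (hC.sr i)
    rcases (hS r C hC).1 γ with hp | hp
    · obtain ⟨a', ha'⟩ := (hγ b).1
      refine ⟨_, h3, w * n, mono_mul hC hwm hn, xg hC γ a' * u',
        mul_mem (mem_Ug hC hp _) hu', ?_⟩
      rw [← ha', smul_eq_mul]
      group
    · by_cases hb : b = 0
      · refine ⟨_, h3, w * n, mono_mul hC hwm hn, u', hu', ?_⟩
        rw [hb, xg_zero, smul_eq_mul]
        group
      · have hb' : b⁻¹ ≠ 0 := inv_ne_zero hb
        -- x_{-i}(b) = x_i(-1/b) w_i(1/b) x_i(-1/b)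
        have e1 : xg hC (hC.sr i).neg b = xg hC (hC.sr i) (-b⁻¹) * wg hC (hC.sr i) b⁻¹ *
            xg hC (hC.sr i) (-b⁻¹) := by
          unfold wg
          rw [inv_inv, ← xg_inv]
          group
        have e2 : w * xg hC (hC.sr i) b = xg hC (hC.sr i).neg b * w := by
          have := (hRC r C hC K (hC.sr i) 1 one_ne_zero b).1
          rw [one_pow, inv_one, one_mul, ← hw] at this
          rw [← this]
          group
        have e3 : w * xg hC (hC.sr i).neg (-b⁻¹) = xg hC (hC.sr i) (-b⁻¹) * w := by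
          have := (hRC r C hC K (hC.sr i) 1 one_ne_zero (-b⁻¹)).2.1
          rw [one_pow, one_mul, ← hw] at this
          rw [← this]
          group
        obtain ⟨a', ha'⟩ := (hγ (-b⁻¹)).2
        refine ⟨_, mul_mem h3 (mem_Ug hC (sr_pos hC i) (-b⁻¹)),
          wg hC (hC.sr i) b⁻¹ * (w * n), mono_mul hC (mono_wg hRC hW hC _ hb')
            (mono_mul hC hwm hn), xg hC γ.neg a' * u', mul_mem (mem_Ug hC hp _) hu', ?_⟩
        rw [← ha', smul_eq_mul]
        calc w * (v * xg hC (hC.sr i) b * n * u')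
            = (w * v * w⁻¹) * (w * xg hC (hC.sr i) b) * n * u' := by group
          _ = (w * v * w⁻¹) * xg hC (hC.sr i) (-b⁻¹) * wg hC (hC.sr i) b⁻¹ *
              (xg hC (hC.sr i) (-b⁻¹) * w) * n * u' := by
              rw [e2, e1]; group
          _ = _ := by
              rw [← e3]; group

end Pool.Agent.DEN.H67
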