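import Pool.Agent.Helper67_DEN.Ups

/-!
# IWA
-/

namespace Pool.Agent.DEN.H67

open Pool.Agent.DEN

section
variable {r : ℕ} {C : Matrix (Fin r) (Fin r) ℤ} {K : Type} [Field K]

theorem mem_Ug (hC : SimplyLaced C) {β : Rt C} (h1 : β.Pos) (a : FF K) :
    xg hC β a ∈ Ug C K :=
  Subgroup.subset_closure ⟨β, a, h1, fun _ => rfl⟩

theorem sr_pos (hC : SimplyLaced C) (i : Fin r) : (hC.sr i).Pos := by
  intro j
  rw [hC.sr_val]
  simp only [al, Pi.single_apply]
  split_ifs <;> norm_num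

theorem Un_le (i : Fin r) : Un C K i ≤ Ug C K := by
  unfold Un Ug
  apply Subgroup.closure_mono
  rintro g ⟨β, a, h1, -, h3⟩
  exact ⟨β, a, h1, h3⟩

theorem wg_inv (hC : SimplyLaced C) (β : Rt C) (c : FF K) :
    (wg hC β c)⁻¹ = wg hC β (-c) := by
  unfold wg
  rw [mul_inv_rev, mul_inv_rev, xg_inv, xg_inv, inv_neg, mul_assoc]

/-- the fourth power of `w` is `1` -/
theorem wg_four (hH : RelHStmt) (hC : SimplyLaced C) (β : Rt C) :
    wg hC β (1 : FF K) * (wg hC β (1 : FF K) * (wg hC β (1 : FF K) * wg hC β (1 : FF K))) = 1 := by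
  set w := wg hC β (1 : FF K) with hw
  have h1 : ∀ v : LieV C (FF K), (w⁻¹ * w⁻¹).1 v = (v.1, fun γ => (-1 : FF K) ^ (ip C β.1 γ.1) * v.2 γ) := by
    intro v
    have := hH r C hC K β (-1) (by simp) v
    rw [← wg_inv hC β 1, ← hw] at this
    exact this
  have h2 : (w⁻¹ * w⁻¹) * (w⁻¹ * w⁻¹) = 1 := by
    apply grp_ext
    intro v
    have e : ((w⁻¹ * w⁻¹) * (w⁻¹ * w⁻¹)).1 v = (w⁻¹ * w⁻¹).1 ((w⁻¹ * w⁻¹).1 v) := rfl
    rw [e, h1, h1]
    refine Prod.ext rfl (funext fun γ => ?_)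
    show (-1 : FF K) ^ (ip C β.1 γ.1) * ((-1 : FF K) ^ (ip C β.1 γ.1) * v.2 γ) = v.2 γ
    rw [← mul_assoc, ← mul_zpow]
    simp
  have h3 : (w * (w * (w * w)))⁻¹ = 1 := by
    rw [← h2]
    group
  rw [← inv_one, ← h3, inv_inv]

theorem wg_inv_three (hH : RelHStmt) (hC : SimplyLaced C) (β : Rt C) :
    (wg hC β (1 : FF K))⁻¹ = wg hC β (1 : FF K) * (wg hC β (1 : FF K) * wg hC β (1 : FF K)) := by
  rw [inv_eq_iff_mul_eq_one]
  exact wg_four hH hC β

/-- a set stable under the generators is stable under the group -/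
theorem stable (hG : GenStmt) (hH : RelHStmt) (hC : SimplyLaced C) {X : Type}
    [MulAction (grp C K) X] (P : X → Prop)
    (h1 : ∀ i (a : FF K) x, P x → P (xg hC (hC.sr i) a • x))
    (h2 : ∀ i x, P x → P (wg hC (hC.sr i) (1 : FF K) • x)) (g : grp C K) :
    ∀ x, P x → P (g • x) := by
  have hg : g ∈ Subgroup.closure
      ({g : grp C K | ∃ (i : Fin r) (a : FF K), g = xg hC (hC.sr i) a} ∪
      {g : grp C K | ∃ i : Fin r, g = wg hC (hC.sr i) (1 : FF K)}) := by
    rw [hG r C hC K]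
    trivial
  have key : (∀ x, P x → P (g • x)) ∧ (∀ x, P x → P (g⁻¹ • x)) := by
    induction hg using Subgroup.closure_induction with
    | mem g hg =>
      rcases hg with ⟨i, a, rfl⟩ | ⟨i, rfl⟩
      · refine ⟨h1 i a, ?_⟩
        rw [xg_inv]
        exact h1 i (-a)
      · refine ⟨h2 i, ?_⟩
        rw [wg_inv_three hH]
        intro x hx
        rw [mul_smul, mul_smul]
        exact h2 i _ (h2 i _ (h2 i _ hx))
    | one => simp
    | mul a b _ _ ha hb =>
      refine ⟨fun x hx => ?_, fun x hx => ?_⟩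
      · rw [mul_smul]
        exact ha.1 _ (hb.1 _ hx)
      · rw [mul_inv_rev, mul_smul]
        exact hb.2 _ (ha.2 _ hx)
    | inv a _ ha => exact ⟨ha.2, by rw [inv_inv]; exact ha.1⟩
  exact key.1

end

theorem iwa (hG : GenStmt) (hU : UpsStmt) (hR : Rk1Stmt) (hH : RelHStmt) : IwaStmt := by
  intro r C hC K _ x
  have key := stable (C := C) (K := K) hG hH hC (X := XX C K)
    (fun x => ∃ u ∈ Ug C K, ∃ (l : Fin r → ℤ) (g : grp C K), IsTor l g ∧ x = u • pt g) ?_ ?_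
  · obtain ⟨g, rfl⟩ := QuotientGroup.mk_surjective x
    have h0 : ∃ u ∈ Ug C K, ∃ (l : Fin r → ℤ) (g : grp C K), IsTor l g ∧
        (pt (1 : grp C K)) = u • pt g := by
      refine ⟨1, one_mem _, 0, 1, ?_, by rw [one_smul]⟩
      intro v
      have e : (1 : grp C K).1 v = v := rfl
      rw [e]
      refine Prod.ext rfl (funext fun γ => ?_)
      show v.2 γ = tt K ^ (ip C γ.1 0) * v.2 γ
      rw [ip_zero_right, zpow_zero, one_mul]
    have := key g _ h0
    have e : g • pt (1 : grp C K) = QuotientGroup.mk g := by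
      show QuotientGroup.mk (g * 1) = _
      rw [mul_one]
    rw [e] at this
    exact this
  · rintro i a x ⟨u, hu, l, g, hg, rfl⟩
    exact ⟨_, mul_mem (mem_Ug hC (sr_pos hC i) a) hu, l, g, hg, by rw [mul_smul]⟩
  · rintro i x ⟨u, hu, l, g, hg, rfl⟩
    obtain ⟨u1, u2, -⟩ := hU r C hC K i
    obtain ⟨b, u', hu', rfl⟩ := u1 u hu
    have h3 := Un_le (C := C) (K := K) i (u2 u' hu')
    have e : wg hC (hC.sr i) (1 : FF K) • (u' * xg hC (hC.sr i) b) • pt g =
        (wg hC (hC.sr i) (1 : FF K) * u' * (wg hC (hC.sr i) (1 : FF K))⁻¹) •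
          wg hC (hC.sr i) (1 : FF K) • xg hC (hC.sr i) b • pt g := by
      simp only [← mul_smul]
      congr 1
      group
    rw [e]
    rcases hR r C hC K i b l g hg with ⟨-, e1, g', hg', e2⟩ | ⟨m, -, -, -, g', hg', e2⟩
    · rw [e1, e2]
      exact ⟨_, h3, _, g', hg', rfl⟩
    · rw [e2, ← mul_smul]
      exact ⟨_, mul_mem h3 (mem_Ug hC (sr_pos hC i) _), _, g', hg', rfl⟩

end Pool.Agent.DEN.H67
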