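import Pool.Agent.Helper22_DEN.Stmt

/-!
# UPS and GEN
-/

namespace Pool.Agent.DEN.H67

open Pool.Agent.DEN

section
variable {r : ℕ} {C : Matrix (Fin r) (Fin r) ℤ} {K : Type} [Field K]

theorem mem_Un (hC : SimplyLaced C) {i : Fin r} {β : Rt C} (h1 : β.Pos) (h2 : β.1 ≠ al i)
    (a : FF K) : xg hC β a ∈ Un C K i :=
  Subgroup.subset_closure ⟨β, a, h1, h2, fun _ => rfl⟩

theorem ne_neg (hC : SimplyLaced C) (i : Fin r) {β : Rt C} (h : β.Pos) :
    ip C (al i) β.1 ≠ -2 := by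
  intro h2
  have e : β = (hC.sr i).neg := hC.ip_eq_neg_two (β := hC.sr i) h2
  have h3 := h i
  rw [e, Rt.neg_val, hC.sr_val] at h3
  simp [al] at h3

theorem ne_two (hC : SimplyLaced C) (i : Fin r) {β : Rt C} (h : β.1 ≠ al i) :
    ip C (al i) β.1 ≠ 2 := by
  intro h2
  have e : hC.sr i = β := hC.ip_eq_two (β := hC.sr i) h2
  exact h (by rw [← e, hC.sr_val])

theorem ip_cases (hC : SimplyLaced C) (i : Fin r) (β : Rt C) :
    ip C (al i) β.1 = 2 ∨ ip C (al i) β.1 = 1 ∨ ip C (al i) β.1 = 0 ∨ ip C (al i) β.1 = -1 ∨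
      ip C (al i) β.1 = -2 := by
  have := hC.ip_bound (hC.sr i) β
  rw [hC.sr_val] at this
  omega

theorem conj_w (hD : RootDescStmt) (hRC : RelCStmt) (hC : SimplyLaced C) (i : Fin r)
    {β : Rt C} (h1 : β.Pos) (h2 : β.1 ≠ al i) (b : FF K) :
    wg hC (hC.sr i) (1 : FF K) * xg hC β b * (wg hC (hC.sr i) (1 : FF K))⁻¹ ∈ Un C K i := by
  obtain ⟨-, -, r1, r2, r3⟩ := hRC r C hC K (hC.sr i) 1 one_ne_zero b
  have hne : β ≠ hC.sr i := fun h => h2 (by rw [h, hC.sr_val])
  have key : ∀ γ : Rt C, γ.1 = β.1 - ip C β.1 (al i) • al i → γ.Pos ∧ γ.1 ≠ al i := by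
    intro γ hγ
    have := (hD r C hC).2.1 i β γ h1 hne hγ
    exact ⟨this.1, fun h => this.2 (Subtype.ext (by rw [h, hC.sr_val]))⟩
  rcases ip_cases hC i β with h | h | h | h | h
  · exact absurd h (ne_two hC i h2)
  · have hr : ip C (β.1 - al i) (β.1 - al i) = 2 := by
      have := hC.ip_sub_self (β := β) (γ := hC.sr i) (by rw [hC.sr_val, hC.ip_comm]; exact h)
      exact this
    rw [r1 β ⟨_, hr⟩ h rfl]
    obtain ⟨k1, k2⟩ := key ⟨_, hr⟩ (by
      show β.1 - al i = _
      rw [hC.ip_comm, h, one_smul])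
    exact mem_Un hC k1 k2 _
  · rw [r3 β h]
    exact mem_Un hC h1 h2 _
  · have hr : ip C (β.1 + al i) (β.1 + al i) = 2 := by
      have := hC.ip_add_self (β := β) (γ := hC.sr i) (by rw [hC.sr_val, hC.ip_comm]; exact h)
      exact this
    rw [r2 β ⟨_, hr⟩ h rfl]
    obtain ⟨k1, k2⟩ := key ⟨_, hr⟩ (by
      show β.1 + al i = _
      rw [hC.ip_comm, h, neg_smul, one_smul, sub_neg_eq_add])
    exact mem_Un hC k1 k2 _
  · exact absurd h (ne_neg hC i h1)

theorem conj_x (hA : RelAStmt) (hB : RelBStmt) (hD : RootDescStmt) (hC : SimplyLaced C)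
    (i : Fin r) {β : Rt C} (h1 : β.Pos) (h2 : β.1 ≠ al i) (a b : FF K) :
    xg hC (hC.sr i) a * xg hC β b * (xg hC (hC.sr i) a)⁻¹ ∈ Un C K i := by
  have hne : β ≠ hC.sr i := fun h => h2 (by rw [h, hC.sr_val])
  by_cases h0 : 0 ≤ ip C (al i) β.1
  · have e : xg hC (hC.sr i) a * xg hC β b = xg hC β b * xg hC (hC.sr i) a :=
      Subtype.ext (hA r C hC (FF K) (hC.sr i) β a b h0)
    rw [e, mul_assoc, mul_inv_cancel, mul_one]
    exact mem_Un hC h1 h2 _
  · have h : ip C (al i) β.1 = -1 := by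
      rcases ip_cases hC i β with h | h | h | h | h
      · omega
      · omega
      · omega
      · exact h
      · exact absurd h (ne_neg hC i h1)
    have hr : ip C (al i + β.1) (al i + β.1) = 2 :=
      hC.ip_add_self (β := hC.sr i) (γ := β) h
    have e : xg hC (hC.sr i) a * xg hC β b = xg hC β b *
        xg hC ⟨_, hr⟩ (((eps C (al i) β.1 : ℤ) : FF K) * a * b) * xg hC (hC.sr i) a :=
      Subtype.ext (hB r C hC (FF K) (hC.sr i) β ⟨_, hr⟩ a b h rfl)
    rw [e, mul_assoc, mul_inv_cancel, mul_one]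
    have := (hD r C hC).2.1 i β ⟨_, hr⟩ h1 hne (by
      show al i + β.1 = _
      rw [hC.ip_comm, h, neg_smul, one_smul, sub_neg_eq_add, add_comm])
    exact mul_mem (mem_Un hC h1 h2 _)
      (mem_Un hC this.1 (fun h => this.2 (Subtype.ext (by rw [h, hC.sr_val]))) _)

/-- conjugation maps a closure in a subgroup -/
theorem conj_closure {G : Type} [Group G] (S : Set G) (H : Subgroup G) (w : G)
    (h : ∀ s ∈ S, w * s * w⁻¹ ∈ H) : ∀ u ∈ Subgroup.closure S, w * u * w⁻¹ ∈ H := by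
  intro u hu
  have : Subgroup.closure S ≤ H.comap (MulAut.conj w).toMonoidHom := by
    rw [Subgroup.closure_le]
    intro s hs
    exact h s hs
  exact this hu

end

theorem ups (hA : RelAStmt) (hB : RelBStmt) (hRC : RelCStmt) (hD : RootDescStmt) : UpsStmt := by
  intro r C hC K _ i
  have p3 : ∀ u ∈ Un C K i, ∀ a : FF K,
      xg hC (hC.sr i) a * u * (xg hC (hC.sr i) a)⁻¹ ∈ Un C K i := by
    intro u hu a
    refine conj_closure _ _ _ ?_ u hu
    rintro s ⟨β, b, h1, h2, h3⟩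
    rw [eq_xg hC β b s h3]
    exact conj_x hA hB hD hC i h1 h2 a b
  refine ⟨?_, ?_, p3⟩
  · intro u hu
    induction hu using Subgroup.closure_induction with
    | mem x hx =>
      obtain ⟨β, a, h1, h2⟩ := hx
      rw [eq_xg hC β a x h2]
      by_cases h : β.1 = al i
      · refine ⟨a, 1, one_mem _, ?_⟩
        rw [one_mul, show β = hC.sr i from Subtype.ext h]
      · exact ⟨0, _, mem_Un hC h1 h a, by rw [xg_zero, mul_one]⟩
    | one => exact ⟨0, 1, one_mem _, by rw [xg_zero, mul_one]⟩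
    | mul x y _ _ hx hy =>
      obtain ⟨b, u, hu, rfl⟩ := hx
      obtain ⟨c, v, hv, rfl⟩ := hy
      refine ⟨b + c, _, mul_mem hu (p3 v hv b), ?_⟩
      rw [xg_add]
      group
    | inv x _ hx =>
      obtain ⟨b, u, hu, rfl⟩ := hx
      refine ⟨-b, _, p3 _ (inv_mem hu) (-b), ?_⟩
      rw [← xg_inv]
      group
  · intro u hu
    refine conj_closure _ _ _ ?_ u hu
    rintro s ⟨β, b, h1, h2, h3⟩
    rw [eq_xg hC β b s h3]
    exact conj_w hD hRC hC i h1 h2 b

theorem gen (hD : RootDescStmt) (hS : RootSignStmt) (hRC : RelCStmt) : GenStmt := by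
  intro r C hC K _
  set H := Subgroup.closure ({g : grp C K | ∃ (i : Fin r) (a : FF K), g = xg hC (hC.sr i) a} ∪
      {g : grp C K | ∃ i : Fin r, g = wg hC (hC.sr i) (1 : FF K)}) with hH
  have hx : ∀ i (a : FF K), xg hC (hC.sr i) a ∈ H := fun i a =>
    Subgroup.subset_closure (Or.inl ⟨i, a, rfl⟩)
  have hw : ∀ i, wg hC (hC.sr i) (1 : FF K) ∈ H := fun i =>
    Subgroup.subset_closure (Or.inr ⟨i, rfl⟩)
  have key : ∀ n : ℕ, ∀ β : Rt C, β.Pos → ∑ j, β.1 j = (n : ℤ) → ∀ a : FF K,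
      xg hC β a ∈ H ∧ xg hC β.neg a ∈ H := by
    intro n
    induction n using Nat.strong_induction_on with
    | _ n ih =>
      intro β hβ hn a
      rcases (hD r C hC).1 β hβ with ⟨i, rfl⟩ | ⟨i, h1, h2⟩
      · refine ⟨hx i a, ?_⟩
        have := (hRC r C hC K (hC.sr i) 1 one_ne_zero a).1
        rw [one_pow, inv_one, one_mul] at this
        rw [← this]
        exact mul_mem (mul_mem (hw i) (hx i a)) (inv_mem (hw i))
      · have h1' : ip C (al i) β.1 = 1 := by rw [hC.ip_comm]; exact h1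
        have hr : ip C (β.1 - al i) (β.1 - al i) = 2 :=
          hC.ip_sub_self (β := β) (γ := hC.sr i) h1
        set γ : Rt C := ⟨_, hr⟩ with hγ
        have hγ1 : γ.1 = β.1 - al i := rfl
        have hs : ∑ j, γ.1 j = (n : ℤ) - 1 := by
          rw [hγ1, ← hn]
          simp [al, Finset.sum_sub_distrib]
        have hγp : γ.Pos := h2
        have hs0 : 0 ≤ ∑ j, γ.1 j := Finset.sum_nonneg fun j _ => hγp j
        have hn1 : 1 ≤ n := by omega
        have ih' := ih (n - 1) (by omega) γ hγp (by rw [hs]; omega)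
          (((eps C (al i) γ.1 : ℤ) : FF K) * a)
        have hip : ip C (al i) γ.1 = -1 := by
          rw [hγ1, ip_sub_right, h1', ip_al_al, hC.diag]
          norm_num
        have he : ((eps C (al i) γ.1 : ℤ) : FF K) * (((eps C (al i) γ.1 : ℤ) : FF K) * a) = a := by
          rw [← mul_assoc, ← Int.cast_mul, eps_mul_self, Int.cast_one, one_mul]
        have e1 := (hRC r C hC K (hC.sr i) 1 one_ne_zero
          (((eps C (al i) γ.1 : ℤ) : FF K) * a)).2.2.2.1 γ β hip
          (by rw [hγ1, hC.sr_val, sub_add_cancel])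
        rw [hC.sr_val, one_mul, he] at e1
        have e2 := (hRC r C hC K (hC.sr i) 1 one_ne_zero
          (((eps C (al i) γ.1 : ℤ) : FF K) * a)).2.2.1 γ.neg β.neg
          (by rw [Rt.neg_val, ip_neg_right, hC.sr_val, hip]; norm_num)
          (by rw [Rt.neg_val, Rt.neg_val, hγ1, hC.sr_val]; abel)
        rw [hC.sr_val, Rt.neg_val, eps_neg_right, inv_one, one_mul, he] at e2
        exact ⟨by rw [← e1]; exact mul_mem (mul_mem (hw i) ih'.1) (inv_mem (hw i)),
          by rw [← e2]; exact mul_mem (mul_mem (hw i) ih'.2) (inv_mem (hw i))⟩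
  rw [eq_top_iff, ← grp_closure hC, Subgroup.closure_le]
  rintro g ⟨β, a, rfl⟩
  rcases (hS r C hC).1 β with h | h
  · have h0 : 0 ≤ ∑ j, β.1 j := Finset.sum_nonneg fun j _ => h j
    exact (key (∑ j, β.1 j).toNat β h (by rw [Int.toNat_of_nonneg h0]) a).1
  · have h0 : 0 ≤ ∑ j, β.neg.1 j := Finset.sum_nonneg fun j _ => h j
    have := (key (∑ j, β.neg.1 j).toNat β.neg h (by rw [Int.toNat_of_nonneg h0]) a).2
    rw [Rt.neg_neg] at this
    exact this

end Pool.Agent.DEN.H67
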