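import Pool.Agent.Helper67_DEN.Filt

/-!
# VAN
-/

namespace Pool.Agent.DEN.H67

open Pool.Agent.DEN

section
variable {r : ℕ} {C : Matrix (Fin r) (Fin r) ℤ} {K : Type} [Field K]

theorem int_mem_ring (P : Polynomial K) (n : ℤ) : ((n : ℤ) : FF K) ∈ ringA K P :=
  intCast_mem _ n

/-- the root elements with entries divisible by `N` are trivial modulo `N` -/
theorem triv_x (hC : SimplyLaced C) (P N : Polynomial K) (β : Rt C) {c : FF K}
    (hc : c ∈ ringA K P) : TrivMod C K P N (xg hC β (polyL K N * c)) := by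
  intro v hv
  have hN : polyL K N ∈ ringA K P := Subring.subset_closure (Or.inl ⟨N, rfl⟩)
  refine ⟨fun i => ?_, fun γ => ?_⟩
  · refine ⟨-(c * v.2 β.neg * ((β.1 i : ℤ) : FF K)),
      neg_mem (mul_mem (mul_mem hc (hv.2 _)) (int_mem_ring P _)), ?_⟩
    show (rootMap β (polyL K N * c) v).1 i - v.1 i = _
    rw [rootMap_fst]
    ring
  · show (rootMap β (polyL K N * c) v).2 γ - v.2 γ ∈ _
    by_cases h1 : γ = β
    · subst h1
      refine ⟨-(c * pr v γ.1) + c * (polyL K N * c) * v.2 γ.neg, ?_, ?_⟩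
      · refine add_mem (neg_mem (mul_mem hc ?_)) (mul_mem (mul_mem hc (mul_mem hN hc)) (hv.2 _))
        unfold pr
        refine sum_mem fun i _ => sum_mem fun j _ => ?_
        exact mul_mem (mul_mem (hv.1 _) (int_mem_ring P _)) (int_mem_ring P _)
      · rw [rootMap_snd_self]
        ring
    · by_cases h2 : ip C β.1 γ.1 = 1
      · refine ⟨c * ((eps C β.1 (γ.1 - β.1) : ℤ) : FF K) * crd v (γ.1 - β.1), ?_, ?_⟩
        · refine mul_mem (mul_mem hc (int_mem_ring P _)) ?_
          unfold crd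
          split_ifs
          · exact hv.2 _
          · exact zero_mem _
        · rw [rootMap_snd_one _ _ _ _ h2]
          ring
      · refine ⟨0, zero_mem _, ?_⟩
        rw [rootMap_snd_other _ _ _ _ h1 h2]
        ring

theorem cong_x (hC : SimplyLaced C) (P N : Polynomial K) (β : Rt C) {c : FF K}
    (hc : c ∈ ringA K P) : xg hC β (polyL K N * c) ∈ cong C K P N := by
  have hN : polyL K N ∈ ringA K P := Subring.subset_closure (Or.inl ⟨N, rfl⟩)
  refine ⟨xg_mem_arith hC P β (mul_mem hN hc), triv_x hC P N β hc, ?_⟩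
  rw [xg_inv, ← mul_neg]
  exact triv_x hC P N β (neg_mem hc)

theorem poly_mem (P p : Polynomial K) : polyL K p ∈ ringA K P :=
  Subring.subset_closure (Or.inl ⟨p, rfl⟩)

end

theorem van (hA : RelAStmt) (hB : RelBStmt) (hS : RootSignStmt) (hF : RootFinStmt)
    (hF1 : Fld1Stmt) (hF2 : Fld2Stmt) (hM : MaxStmt) : VanStmt := by
  intro r C hC K _ N hN f hf γ hγ l g hg hl i hi
  obtain ⟨-, -, -, -, fmono, -⟩ := hF1 K
  obtain ⟨-, -, -, fdiv, -⟩ := hF2 K
  obtain ⟨-, -, -, mfix⟩ := hM r C hC K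
  obtain ⟨-, -, -, spair⟩ := hS r C hC
  set V : Subgroup (grp C K) := Subgroup.closure
    {g | ∃ β : Rt C, 0 < β.1 i ∧ ∃ a ∈ Bd K (ip C β.1 l), g = xg hC β a} with hV
  have hVs : ∀ v ∈ V, v • pt g = pt g := by
    intro v hv
    have : V ≤ MulAction.stabilizer (grp C K) (pt g) := by
      rw [hV, Subgroup.closure_le]
      rintro _ ⟨β, -, a, ha, rfl⟩
      exact mfix l g hg β a ha
    exact this hv
  have hset : {y : XX C K | ∃ v ∈ V, y = v • pt g} = {pt g} := by
    ext y
    constructor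
    · rintro ⟨v, hv, rfl⟩
      exact hVs v hv
    · rintro rfl
      exact ⟨1, one_mem _, (one_smul _ _).symm⟩
  have hrad : rad C K i = Subgroup.closure
      {g : grp C K | ∃ β ∈ {β : Rt C | 0 < β.1 i}, ∃ a : FF K, g = xg hC β a} := by
    rw [rad_eq hC]
    congr 1
    ext g
    constructor
    · rintro ⟨β, a, h, rfl⟩
      exact ⟨β, h, a, rfl⟩
    · rintro ⟨β, h, a, rfl⟩
      exact ⟨β, a, h, rfl⟩
  have hV1 : V ≤ rad C K i := by
    rw [rad_eq hC]
    apply Subgroup.closure_mono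
    rintro _ ⟨β, h, a, -, rfl⟩
    exact ⟨β, a, h, rfl⟩
  have hdec : ∀ u ∈ rad C K i, ∃ v ∈ V, ∃ n ∈ rad C K i ⊓ cong C K 1 N, u = v * n := by
    intro u hu
    rw [hrad] at hu
    obtain ⟨a, ha, b, hb, e⟩ := filt hA hB hF hC {β : Rt C | 0 < β.1 i}
      (fun β hβ => one_le_ht (pos_of_coord hS hC hβ)) (by
        intro β hβ γ hγ δ h
        show 0 < δ.1 i
        have h1 : 0 < β.1 i := hβ
        have h2 : 0 < γ.1 i := hγ
        rw [h, Pi.add_apply]
        omega) V (cong C K 1 N) (by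
        intro β hβ a
        have hβ' : 0 < β.1 i := hβ
        obtain ⟨p, hp⟩ := fdiv N hN a
        refine ⟨a - polyL K N * polyL K p, polyL K N * polyL K p, by ring, ?_,
          cong_x hC 1 N β (poly_mem 1 p)⟩
        refine Subgroup.subset_closure ⟨β, hβ', _, fmono _ _ _ ?_ hp, rfl⟩
        have h1 := spair β.1 l hl (pos_of_coord hS hC hβ') i
        have h2 := hl i
        nlinarith) u hu
    rw [hrad]
    exact ⟨a, ha.1, b, ⟨hb.2, hb.1⟩, e⟩
  have h := hf.2 i γ hγ (pt g) V hV1 hdec (by rw [hset]; exact Set.finite_singleton _)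
  rw [hset, finsum_mem_singleton] at h
  exact h

end Pool.Agent.DEN.H67
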