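import Pool.Agent.Helper67_DEN.Iwa

/-!
# Decomposition of unipotent groups by descending induction on the height
-/

namespace Pool.Agent.DEN.H67

open Pool.Agent.DEN

section Abs
variable {G : Type} [Group G]

theorem abs_normal (S : Set G) (N : Subgroup G) (hS : ∀ s ∈ S, s⁻¹ ∈ S)
    (hN : ∀ s ∈ S, ∀ n ∈ N, s * n * s⁻¹ ∈ N) :
    ∀ y ∈ Subgroup.closure S, ∀ n ∈ N, y * n * y⁻¹ ∈ N := by
  have key : ∀ y ∈ Subgroup.closure S, (∀ n ∈ N, y * n * y⁻¹ ∈ N) ∧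
      (∀ n ∈ N, y⁻¹ * n * y ∈ N) := by
    intro y hy
    induction hy using Subgroup.closure_induction with
    | mem x hx =>
      refine ⟨hN x hx, fun n hn => ?_⟩
      have := hN _ (hS x hx) n hn
      rwa [inv_inv] at this
    | one => simp
    | mul x y _ _ hx hy =>
      refine ⟨fun n hn => ?_, fun n hn => ?_⟩
      · have := hx.1 _ (hy.1 n hn)
        have e : x * y * n * (x * y)⁻¹ = x * (y * n * y⁻¹) * x⁻¹ := by group
        rwa [e]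
      · have := hy.2 _ (hx.2 n hn)
        have e : (x * y)⁻¹ * n * (x * y) = y⁻¹ * (x⁻¹ * n * x) * y := by group
        rwa [e]
    | inv x _ hx => exact ⟨by simpa using hx.2, by simpa using hx.1⟩
  exact fun y hy => (key y hy).1

theorem abs_comm (S : Set G) (N : Subgroup G) (hS : ∀ s ∈ S, s⁻¹ ∈ S)
    (hN : ∀ s ∈ S, ∀ n ∈ N, s * n * s⁻¹ ∈ N)
    (hc : ∀ s ∈ S, ∀ t ∈ S, s * t * s⁻¹ * t⁻¹ ∈ N) :
    ∀ x ∈ Subgroup.closure S, ∀ y ∈ Subgroup.closure S, x * y * x⁻¹ * y⁻¹ ∈ N := by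
  have hn := abs_normal S N hS hN
  have key : ∀ s ∈ S, ∀ y ∈ Subgroup.closure S, s * y * s⁻¹ * y⁻¹ ∈ N := by
    intro s hs y hy
    induction hy using Subgroup.closure_induction with
    | mem x hx => exact hc s hs x hx
    | one => simp
    | mul x y hx hy h1 h2 =>
      have e : s * (x * y) * s⁻¹ * (x * y)⁻¹ =
          (s * x * s⁻¹ * x⁻¹) * (x * (s * y * s⁻¹ * y⁻¹) * x⁻¹) := by group
      rw [e]
      exact mul_mem h1 (hn x hx _ h2)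
    | inv x hx h1 =>
      have e : s * x⁻¹ * s⁻¹ * x⁻¹⁻¹ = x⁻¹ * (s * x * s⁻¹ * x⁻¹)⁻¹ * x⁻¹⁻¹ := by group
      rw [e]
      exact hn _ (inv_mem hx) _ (inv_mem h1)
  intro x hx y hy
  induction hx using Subgroup.closure_induction with
  | mem x hx => exact key x hx y hy
  | one => simp
  | mul x z hx hz h1 h2 =>
    have e : x * z * y * (x * z)⁻¹ * y⁻¹ =
        (x * (z * y * z⁻¹ * y⁻¹) * x⁻¹) * (x * y * x⁻¹ * y⁻¹) := by group
    rw [e]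
    exact mul_mem (hn x hx _ h2) h1
  | inv x hx h1 =>
    have e : x⁻¹ * y * x⁻¹⁻¹ * y⁻¹ = x⁻¹ * (x * y * x⁻¹ * y⁻¹)⁻¹ * x⁻¹⁻¹ := by group
    rw [e]
    exact hn _ (inv_mem hx) _ (inv_mem h1)

theorem abs_dec (S : Set G) (N A B : Subgroup G) (hS : ∀ s ∈ S, s⁻¹ ∈ S)
    (hN : ∀ s ∈ S, ∀ n ∈ N, s * n * s⁻¹ ∈ N)
    (hc : ∀ s ∈ S, ∀ t ∈ S, s * t * s⁻¹ * t⁻¹ ∈ N)
    (hd : ∀ s ∈ S, ∃ a ∈ A ⊓ Subgroup.closure S, ∃ b ∈ B ⊓ Subgroup.closure S, s = a * b) :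
    ∀ u ∈ Subgroup.closure S, ∃ a ∈ A ⊓ Subgroup.closure S, ∃ n ∈ N,
      ∃ b ∈ B ⊓ Subgroup.closure S, u = a * n * b := by
  have hn := abs_normal S N hS hN
  have hm := abs_comm S N hS hN hc
  intro u hu
  induction hu using Subgroup.closure_induction with
  | mem s hs =>
    obtain ⟨a, ha, b, hb, e⟩ := hd s hs
    exact ⟨a, ha, 1, one_mem _, b, hb, by rw [mul_one]; exact e⟩
  | one => exact ⟨1, one_mem _, 1, one_mem _, 1, one_mem _, by simp⟩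
  | mul x y _ _ hx hy =>
    obtain ⟨a, ha, n, hn1, b, hb, rfl⟩ := hx
    obtain ⟨a', ha', n', hn', b', hb', rfl⟩ := hy
    refine ⟨a * a', mul_mem ha ha', (a'⁻¹ * (n * (b * a' * b⁻¹ * a'⁻¹)) * a'⁻¹⁻¹) *
      (b * n' * b⁻¹), mul_mem (hn _ (inv_mem ha'.2) _ (mul_mem hn1 (hm b hb.2 a' ha'.2)))
        (hn b hb.2 _ hn'), b * b', mul_mem hb hb', by group⟩
  | inv x _ hx =>
    obtain ⟨a, ha, n, hn1, b, hb, rfl⟩ := hx
    refine ⟨a⁻¹, inv_mem ha, a * ((b⁻¹ * n⁻¹ * b⁻¹⁻¹) * (b⁻¹ * a⁻¹ * b⁻¹⁻¹ * a⁻¹⁻¹)) * a⁻¹,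
      hn a ha.2 _ (mul_mem (hn _ (inv_mem hb.2) _ (inv_mem hn1))
        (hm _ (inv_mem hb.2) _ (inv_mem ha.2))), b⁻¹, inv_mem hb, by group⟩

end Abs

section
variable {r : ℕ} {C : Matrix (Fin r) (Fin r) ℤ} {K : Type} [Field K]

/-- the generators of height at least `h` -/
def SS (K : Type) [Field K] (hC : SimplyLaced C) (Φ : Set (Rt C)) (h : ℕ) : Set (grp C K) :=
  {g | ∃ β ∈ Φ, (h : ℤ) ≤ ht β ∧ ∃ a : FF K, g = xg hC β a}

theorem ht_add {β γ δ : Rt C} (h : δ.1 = β.1 + γ.1) : ht δ = ht β + ht γ := by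
  unfold ht
  rw [h]
  simp [Finset.sum_add_distrib]

theorem ht_neg (β : Rt C) : ht β.neg = -ht β := by
  unfold ht
  simp

/-- commutators of root elements -/
theorem comm_x (hA : RelAStmt) (hB : RelBStmt) (hC : SimplyLaced C) (Φ : Set (Rt C))
    (hΦ : ∀ β ∈ Φ, ∀ γ ∈ Φ, ∀ δ : Rt C, δ.1 = β.1 + γ.1 → δ ∈ Φ) {h k : ℕ} (hh : 1 ≤ h)
    (hk : 1 ≤ k) {β γ : Rt C} (hβ : β ∈ Φ) (hγ : γ ∈ Φ) (h1 : (h : ℤ) ≤ ht β)
    (h2 : (k : ℤ) ≤ ht γ) (a b : FF K) :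
    xg hC β a * xg hC γ b * (xg hC β a)⁻¹ * (xg hC γ b)⁻¹ ∈
      Subgroup.closure (SS K hC Φ (h + k)) := by
  by_cases h0 : 0 ≤ ip C β.1 γ.1
  · have e : xg hC β a * xg hC γ b = xg hC γ b * xg hC β a :=
      Subtype.ext (hA r C hC (FF K) β γ a b h0)
    rw [e]
    have e2 : xg hC γ b * xg hC β a * (xg hC β a)⁻¹ * (xg hC γ b)⁻¹ = 1 := by group
    rw [e2]
    exact one_mem _
  · have hb := hC.ip_bound β γ
    have h3 : ip C β.1 γ.1 = -1 := by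
      by_contra h3
      have h4 : ip C β.1 γ.1 = -2 := by omega
      have h5 := hC.ip_eq_neg_two h4
      have h6 := ht_neg β
      rw [← h5] at h6
      omega
    have hr := hC.ip_add_self h3
    set δ : Rt C := ⟨_, hr⟩ with hδ
    have hδ1 : δ.1 = β.1 + γ.1 := rfl
    have e : xg hC β a * xg hC γ b = xg hC γ b *
        xg hC δ (((eps C β.1 γ.1 : ℤ) : FF K) * a * b) * xg hC β a :=
      Subtype.ext (hB r C hC (FF K) β γ δ a b h3 rfl)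
    set c := ((eps C β.1 γ.1 : ℤ) : FF K) * a * b with hc
    have e2 : xg hC γ b * xg hC δ c = xg hC δ c * xg hC γ b :=
      Subtype.ext (hA r C hC (FF K) γ δ b c (by
        rw [hδ1, ip_add_right, γ.2, hC.ip_comm, h3]; norm_num))
    have e3 : xg hC β a * xg hC γ b * (xg hC β a)⁻¹ * (xg hC γ b)⁻¹ = xg hC δ c := by
      rw [e, e2]
      group
    rw [e3]
    refine Subgroup.subset_closure ⟨δ, hΦ β hβ γ hγ δ hδ1, ?_, c, rfl⟩
    rw [ht_add hδ1]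
    push_cast
    omega

theorem SS_mono (hC : SimplyLaced C) (Φ : Set (Rt C)) {h k : ℕ} (hhk : h ≤ k) :
    Subgroup.closure (SS K hC Φ k) ≤ Subgroup.closure (SS K hC Φ h) := by
  apply Subgroup.closure_mono
  rintro g ⟨β, hβ, h1, a, rfl⟩
  exact ⟨β, hβ, le_trans (by exact_mod_cast hhk) h1, a, rfl⟩

theorem SS_inv (hC : SimplyLaced C) (Φ : Set (Rt C)) (h : ℕ) :
    ∀ s ∈ SS K hC Φ h, s⁻¹ ∈ SS K hC Φ h := by
  rintro _ ⟨β, hβ, h1, a, rfl⟩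
  exact ⟨β, hβ, h1, -a, xg_inv hC β a⟩

theorem SS_norm (hA : RelAStmt) (hB : RelBStmt) (hC : SimplyLaced C) (Φ : Set (Rt C))
    (hΦ : ∀ β ∈ Φ, ∀ γ ∈ Φ, ∀ δ : Rt C, δ.1 = β.1 + γ.1 → δ ∈ Φ) {h k : ℕ} (hh : 1 ≤ h)
    (hk : 1 ≤ k) : ∀ s ∈ SS K hC Φ h, ∀ n ∈ Subgroup.closure (SS K hC Φ k),
      s * n * s⁻¹ ∈ Subgroup.closure (SS K hC Φ k) := by
  rintro _ ⟨β, hβ, h1, a, rfl⟩
  refine conj_closure _ _ _ ?_
  rintro _ ⟨γ, hγ, h2, b, rfl⟩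
  have e : xg hC β a * xg hC γ b * (xg hC β a)⁻¹ =
      (xg hC β a * xg hC γ b * (xg hC β a)⁻¹ * (xg hC γ b)⁻¹) * xg hC γ b := by group
  rw [e]
  exact mul_mem (SS_mono hC Φ (Nat.le_add_left k h) (comm_x hA hB hC Φ hΦ hh hk hβ hγ h1 h2 a b))
    (Subgroup.subset_closure ⟨γ, hγ, h2, b, rfl⟩)

/-- decomposition of a unipotent group -/
theorem filt (hA : RelAStmt) (hB : RelBStmt) (hF : RootFinStmt) (hC : SimplyLaced C)
    (Φ : Set (Rt C)) (hΦ1 : ∀ β ∈ Φ, 1 ≤ ht β)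
    (hΦ : ∀ β ∈ Φ, ∀ γ ∈ Φ, ∀ δ : Rt C, δ.1 = β.1 + γ.1 → δ ∈ Φ)
    (A B : Subgroup (grp C K))
    (hd : ∀ β ∈ Φ, ∀ a : FF K, ∃ p v : FF K, a = p + v ∧ xg hC β p ∈ A ∧ xg hC β v ∈ B) :
    ∀ u ∈ Subgroup.closure {g : grp C K | ∃ β ∈ Φ, ∃ a : FF K, g = xg hC β a},
    ∃ a ∈ A ⊓ Subgroup.closure {g : grp C K | ∃ β ∈ Φ, ∃ a : FF K, g = xg hC β a},
    ∃ b ∈ B ⊓ Subgroup.closure {g : grp C K | ∃ β ∈ Φ, ∃ a : FF K, g = xg hC β a}, u = a * b := by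
  have hfin : Finite (Rt C) := hF r C hC
  obtain ⟨M, hM⟩ := (Set.finite_range (fun β : Rt C => ht β)).bddAbove
  have hM' : ∀ β : Rt C, ht β ≤ M := fun β => hM ⟨β, rfl⟩
  have key : ∀ k h : ℕ, 1 ≤ h → M < h + k → ∀ u ∈ Subgroup.closure (SS K hC Φ h),
      ∃ a ∈ A ⊓ Subgroup.closure (SS K hC Φ h), ∃ b ∈ B ⊓ Subgroup.closure (SS K hC Φ h),
        u = a * b := by
    intro k
    induction k with
    | zero =>
      intro h h1 h2 u hu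
      have e : SS K hC Φ h = ∅ := by
        rw [Set.eq_empty_iff_forall_notMem]
        rintro g ⟨β, -, h3, -⟩
        have := hM' β
        push_cast at h2
        omega
      rw [e, Subgroup.closure_empty, Subgroup.mem_bot] at hu
      exact ⟨1, one_mem _, 1, one_mem _, by rw [hu, mul_one]⟩
    | succ k ih =>
      intro h h1 h2 u hu
      obtain ⟨a, ha, n, hn, b, hb, rfl⟩ := abs_dec (SS K hC Φ h)
        (Subgroup.closure (SS K hC Φ (h + 1))) A B (SS_inv hC Φ h)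
        (SS_norm hA hB hC Φ hΦ h1 (by omega)) (by
          rintro _ ⟨β, hβ, h3, a, rfl⟩ _ ⟨γ, hγ, h4, b, rfl⟩
          exact SS_mono hC Φ (by omega) (comm_x hA hB hC Φ hΦ h1 h1 hβ hγ h3 h4 a b)) (by
          rintro _ ⟨β, hβ, h3, a, rfl⟩
          obtain ⟨p, v, rfl, hp, hv⟩ := hd β hβ a
          exact ⟨_, ⟨hp, Subgroup.subset_closure ⟨β, hβ, h3, p, rfl⟩⟩, _,
            ⟨hv, Subgroup.subset_closure ⟨β, hβ, h3, v, rfl⟩⟩, xg_add hC β p v⟩) u hu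
      obtain ⟨a', ha', b', hb', rfl⟩ := ih (h + 1) (by omega) (by push_cast at h2 ⊢; omega) n hn
      exact ⟨a * a', mul_mem ha ⟨ha'.1, SS_mono hC Φ (by omega) ha'.2⟩, b' * b,
        mul_mem ⟨hb'.1, SS_mono hC Φ (by omega) hb'.2⟩ hb, by group⟩
  have e : {g : grp C K | ∃ β ∈ Φ, ∃ a : FF K, g = xg hC β a} = SS K hC Φ 1 := by
    ext g
    constructor
    · rintro ⟨β, hβ, a, rfl⟩
      exact ⟨β, hβ, by exact_mod_cast hΦ1 β hβ, a, rfl⟩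
    · rintro ⟨β, hβ, -, a, rfl⟩
      exact ⟨β, hβ, a, rfl⟩
  rw [e]
  exact key (M.toNat + 1) 1 le_rfl (by push_cast; have := Int.self_le_toNat M; omega)

/-- a positive root has height at least `1` -/
theorem one_le_ht {β : Rt C} (h : β.Pos) : 1 ≤ ht β := by
  have h0 : 0 ≤ ht β := Finset.sum_nonneg fun j _ => h j
  by_contra h1
  have h2 : ht β = 0 := by omega
  have h3 : ∀ j, β.1 j = 0 := by
    intro j
    exact (Finset.sum_eq_zero_iff_of_nonneg (fun j _ => h j)).1 h2 j (Finset.mem_univ j)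
  have h4 : β.1 = 0 := funext h3
  have h5 := β.2
  rw [h4, ip_zero_left] at h5
  norm_num at h5

/-- a root with a positive coordinate is positive -/
theorem pos_of_coord (hS : RootSignStmt) (hC : SimplyLaced C) {β : Rt C} {i : Fin r}
    (h : 0 < β.1 i) : β.Pos := by
  rcases (hS r C hC).1 β with h1 | h1
  · exact h1
  · have := h1 i
    rw [Rt.neg_val, Pi.neg_apply] at this
    omega

end

end Pool.Agent.DEN.H67
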